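import Pool.Agent.V11176.MC.Prime
import Pool.Agent.V11176.MC.PartExp

/-!
# There are fewer distinct multinomial coefficients than restricted partitions for large `n`
-/

namespace Pool.Agent.Results.MP_f0b429_co.FewMultinomials

open Finset V11176.MC

/-- The integers of the form `n! / (i₁! ⋯ i_k!)` with `k ≥ 1`, `i_j ≥ 0`, `i₁ + ⋯ + i_k = n`. -/
def multinomials (n : ℕ) : Set ℕ :=
  {v | ∃ l : List ℕ, l ≠ [] ∧ l.sum = n ∧ v = n.factorial / (l.map Nat.factorial).prod}

/-- `M(n)`: the number of distinct multinomial coefficients. -/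
noncomputable def M (n : ℕ) : ℕ := (multinomials n).ncard

/-- `p*(n)`: the number of partitions of `n` in which every part is at most `6` or a multiple
of `3`. -/
def pstar (n : ℕ) : ℕ :=
  (Finset.univ.filter fun p : n.Partition => ∀ i ∈ p.parts, i ≤ 6 ∨ 3 ∣ i).card

theorem multinomials_subset (n : ℕ) : multinomials n ⊆ (fun V => n.factorial / V) '' vals n := by
  rintro v ⟨l, _, hl, rfl⟩
  exact ⟨fp l, ⟨l, hl, rfl⟩, rfl⟩

theorem multinomials_finite (n : ℕ) : (multinomials n).Finite :=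
  ((vals_finite n).image _).subset (multinomials_subset n)

theorem M_le (n : ℕ) : M n ≤ (vals n).ncard :=
  (Set.ncard_le_ncard (multinomials_subset n) ((vals_finite n).image _)).trans
    (Set.ncard_image_le (vals_finite n))

/-! ### Lower bound for `p*` -/

theorem sum_parts_le (r : ℕ) (hr : 3 ≤ r) : ∑ s ∈ range r, (3 * s + 9) ≤ 4 * r ^ 2 := by
  have h : ∀ r : ℕ, 2 * ∑ s ∈ range r, (3 * s + 9) + 3 * r = 3 * r ^ 2 + 18 * r := by
    intro r
    induction r with
    | zero => simp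
    | succ r ih =>
      rw [Finset.sum_range_succ]
      nlinarith
  have := h r
  nlinarith

/-- The partition attached to a set of parts. -/
def part (r n : ℕ) (hn : ∑ s ∈ range r, (3 * s + 9) ≤ n) (S : Finset ℕ) (hS : S ⊆ range r) :
    n.Partition where
  parts := S.val.map (fun s => 3 * s + 9) + Multiset.replicate (n - ∑ s ∈ S, (3 * s + 9)) 1
  parts_pos := by
    intro i hi
    rw [Multiset.mem_add, Multiset.mem_map] at hi
    rcases hi with ⟨s, _, rfl⟩ | hi
    · omega
    · rw [Multiset.eq_of_mem_replicate hi]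
      norm_num
  parts_sum := by
    rw [Multiset.sum_add, Multiset.sum_replicate, smul_eq_mul, mul_one]
    change ∑ s ∈ S, (3 * s + 9) + _ = n
    have : ∑ s ∈ S, (3 * s + 9) ≤ ∑ s ∈ range r, (3 * s + 9) :=
      Finset.sum_le_sum_of_subset hS
    omega

theorem mem_part {r n : ℕ} (hn : ∑ s ∈ range r, (3 * s + 9) ≤ n) {S : Finset ℕ}
    (hS : S ⊆ range r) (s : ℕ) : 3 * s + 9 ∈ (part r n hn S hS).parts ↔ s ∈ S := by
  simp only [part, Multiset.mem_add, Multiset.mem_map]
  constructor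
  · rintro (⟨t, ht, hts⟩ | h)
    · have : t = s := by omega
      rwa [← this]
    · have := Multiset.eq_of_mem_replicate h
      omega
  · intro h
    exact Or.inl ⟨s, h, rfl⟩

theorem pstar_ge (r n : ℕ) (hn : ∑ s ∈ range r, (3 * s + 9) ≤ n) : 2 ^ r ≤ pstar n := by
  classical
  have h1 : ((range r).powerset.attach.image fun S =>
      part r n hn S.1 (Finset.mem_powerset.1 S.2)).card = 2 ^ r := by
    rw [Finset.card_image_of_injective, Finset.card_attach, Finset.card_powerset,
      Finset.card_range]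
    intro S S' h
    apply Subtype.ext
    ext s
    rw [← mem_part hn (Finset.mem_powerset.1 S.2), ← mem_part hn (Finset.mem_powerset.1 S'.2)]
    have h' : part r n hn S.1 (Finset.mem_powerset.1 S.2) =
      part r n hn S'.1 (Finset.mem_powerset.1 S'.2) := h
    rw [h']
  rw [← h1, pstar]
  apply Finset.card_le_card
  intro p hp
  rw [Finset.mem_image] at hp
  obtain ⟨S, _, rfl⟩ := hp
  rw [Finset.mem_filter]
  refine ⟨Finset.mem_univ _, fun i hi => ?_⟩
  simp only [part, Multiset.mem_add, Multiset.mem_map] at hi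
  rcases hi with ⟨s, _, rfl⟩ | hi
  · right
    exact ⟨s + 3, by ring⟩
  · left
    rw [Multiset.eq_of_mem_replicate hi]
    norm_num

/-! ### The comparison -/

theorem partition_sum_le (N : ℕ) :
    ((∑ s ∈ range (N + 1), Fintype.card (Nat.Partition s) : ℕ) : ℝ) ≤
      (N + 1) * Real.exp (3 * Real.sqrt N) := by
  push_cast
  refine (Finset.sum_le_card_nsmul _ _ (Real.exp (3 * Real.sqrt N)) ?_).trans ?_
  · intro s hs
    refine (V11176.MC.PartExp.card_partition_le_exp s).trans ?_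
    apply Real.exp_le_exp.2
    apply mul_le_mul_of_nonneg_left _ (by norm_num)
    apply Real.sqrt_le_sqrt
    have := Finset.mem_range.1 hs
    exact_mod_cast (by omega : s ≤ N)
  · rw [Finset.card_range, nsmul_eq_mul]
    push_cast
    exact le_refl _

theorem two_pow_ge (t : ℕ) (ht : 20 ≤ t) : 37000 * t ≤ 2 ^ t := by
  induction t, ht using Nat.le_induction with
  | base => norm_num
  | succ t ht ih =>
    rw [pow_succ]
    omega

theorem M_lt (t : ℕ) (ht : 20 ≤ t) : M (2 ^ (2 * 2 ^ t)) < pstar (2 ^ (2 * 2 ^ t)) := by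
  set m := 2 ^ t with hm
  have htm := two_pow_ge t ht
  rw [← hm] at htm
  have hm2 : 740000 ≤ m := by omega
  set a := m - 2 * t with ha
  have ham : a ≤ m := Nat.sub_le _ _
  have ha4 : 4 ≤ a := by omega
  have hat : a + 2 * t = m := by omega
  -- `2 ^ a * m ^ 2 = 2 ^ m`
  have hpow : (2 : ℝ) ^ a * (m : ℝ) ^ 2 = 2 ^ m := by
    rw [← hat, pow_add, hat, hm]
    push_cast
    rw [← pow_mul, mul_comm t 2]
  set N := NB a (2 * m - a) m with hN
  have hm0 : (0 : ℝ) < m := by exact_mod_cast (by omega : 0 < m)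
  have hx0 : (0 : ℝ) < 2 ^ m := by positivity
  have hNle : (N : ℝ) ≤ (2 ^ m) ^ 2 / 900 := by
    refine (NB_le ha4 ham).trans ?_
    have ha0 : (0 : ℝ) < a := by exact_mod_cast (by omega : 0 < a)
    have e1 : (2 * m - 2 * a : ℝ) = 4 * t := by
      have : (m : ℝ) = a + 2 * t := by exact_mod_cast hat.symm
      rw [this]
      ring
    have e2 : ((2 : ℝ) ^ (2 * m)) = (2 ^ m) ^ 2 := by rw [← pow_mul, mul_comm]
    rw [e1, e2]
    have h3 : (36000 : ℝ) * t ≤ a := by exact_mod_cast (by omega : 36000 * t ≤ a)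
    have h4 : 4 * (t : ℝ) * (10 * (2 ^ m) ^ 2 / a) = (40 * t / a) * (2 ^ m) ^ 2 := by
      field_simp
      ring
    rw [h4]
    have h5 : 40 * (t : ℝ) / a ≤ 1 / 900 := by
      rw [div_le_div_iff₀ ha0 (by norm_num)]
      linarith
    have h6 : (0 : ℝ) ≤ (2 ^ m) ^ 2 := by positivity
    nlinarith
  have hsqrt : Real.sqrt N ≤ 2 ^ m / 30 := by
    rw [Real.sqrt_le_left (by positivity), div_pow]
    norm_num
    exact hNle
  -- the upper bound
  have hcore : ∀ V, Good (2 ^ (2 * m)) V →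
      (core (2 ^ a) (2 ^ (2 * m)) (2 ^ a) V).sum ≤ N := fun V hV => core_sum_le ham hV
  have hup := (M_le (2 ^ (2 * m))).trans (ncard_vals_le _ _ _ _ hcore)
  have hup' : (M (2 ^ (2 * m)) : ℝ) ≤ ((2 : ℝ) ^ (2 * m) + 1) ^ (2 ^ a + 1) *
      (((2 : ℝ) ^ (2 * m) + 1) ^ (2 ^ a) * ((N + 1) * Real.exp (3 * Real.sqrt N))) := by
    have h1 : (M (2 ^ (2 * m)) : ℝ) ≤ (((2 ^ (2 * m) + 1) ^ (2 ^ a + 1) *
        ((2 ^ (2 * m) + 1) ^ (2 ^ a) *
          ∑ s ∈ range (N + 1), Fintype.card (Nat.Partition s)) : ℕ) : ℝ) := by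
      exact_mod_cast hup
    refine h1.trans ?_
    rw [Nat.cast_mul, Nat.cast_mul]
    have h2 := partition_sum_le N
    push_cast at h2 ⊢
    gcongr
  have hM : (M (2 ^ (2 * m)) : ℝ) < 2 ^ (2 ^ (m - 1)) := by
    refine lt_of_le_of_lt hup' ?_
    have hpos : (0 : ℝ) < (2 : ℝ) ^ (2 * m) + 1 := by positivity
    have hN1 : (0 : ℝ) < (N : ℝ) + 1 := by positivity
    rw [← Real.log_lt_log_iff (by positivity) (by positivity)]
    rw [Real.log_mul (by positivity) (by positivity), Real.log_mul (by positivity) (by positivity),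
      Real.log_mul (by positivity) (by positivity), Real.log_exp, Real.log_pow, Real.log_pow,
      Real.log_pow]
    have hl2 : 0 < Real.log 2 := Real.log_pos (by norm_num)
    have hl2' : Real.log 2 ≤ 1 := by
      have := Real.log_two_lt_d9
      linarith
    have hl2'' : 0.69 ≤ Real.log 2 := by
      have := Real.log_two_gt_d9
      linarith
    have hlog1 : Real.log ((2 : ℝ) ^ (2 * m) + 1) ≤ 3 * m := by
      have h1 : (2 : ℝ) ^ (2 * m) + 1 ≤ 2 ^ (3 * m) := by
        have : (2 : ℝ) ^ (3 * m) = 2 ^ (2 * m) * 2 ^ m := by rw [← pow_add]; congr 1; ring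
        have h2 : (2 : ℝ) ≤ 2 ^ m := by
          calc (2 : ℝ) = 2 ^ 1 := by norm_num
            _ ≤ 2 ^ m := pow_le_pow_right₀ (by norm_num) (by omega)
        have h3 : (1 : ℝ) ≤ 2 ^ (2 * m) := one_le_pow₀ (by norm_num)
        nlinarith
      calc Real.log ((2 : ℝ) ^ (2 * m) + 1) ≤ Real.log (2 ^ (3 * m)) := Real.log_le_log hpos h1
        _ = (3 * m : ℕ) * Real.log 2 := Real.log_pow _ _
        _ ≤ 3 * m := by
          push_cast
          nlinarith
    have hlog2 : Real.log ((N : ℝ) + 1) ≤ 3 * m := by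
      refine (Real.log_le_log hN1 ?_).trans hlog1
      have e2 : ((2 : ℝ) ^ (2 * m)) = (2 ^ m) ^ 2 := by rw [← pow_mul, mul_comm]
      rw [e2]
      have : (0 : ℝ) < (2 ^ m) ^ 2 := by positivity
      linarith
    have hlog1' : 0 ≤ Real.log ((2 : ℝ) ^ (2 * m) + 1) := by
      apply Real.log_nonneg
      have : (0 : ℝ) < 2 ^ (2 * m) := by positivity
      linarith
    -- set `y = 2 ^ a`
    set y : ℝ := (2 : ℝ) ^ a with hy
    have hy1 : 1 ≤ y := one_le_pow₀ (by norm_num)
    have hhalf : (2 : ℝ) * 2 ^ (m - 1) = 2 ^ m := by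
      rw [← pow_succ']
      congr 1
      omega
    push_cast
    rw [← hy]
    have hx : (2 : ℝ) ^ m = y * m ^ 2 := hpow.symm
    have hmbig : (740000 : ℝ) ≤ m := by exact_mod_cast hm2
    -- the three terms
    have t1 : (y + 1) * Real.log ((2 : ℝ) ^ (2 * m) + 1) ≤ 6 * y * m := by nlinarith
    have t2 : y * Real.log ((2 : ℝ) ^ (2 * m) + 1) ≤ 3 * y * m := by nlinarith
    have t3 : Real.log ((N : ℝ) + 1) ≤ 3 * y * m := by nlinarith
    have t4 : 3 * Real.sqrt N ≤ (y * m ^ 2) / 10 := by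
      rw [← hx]
      linarith
    have t5 : (2 : ℝ) ^ (m - 1) = y * m ^ 2 / 2 := by
      rw [← hx]
      linarith
    rw [t5]
    have hym : 0 < y * m := by positivity
    have h12 : 12 * (y * m) ≤ (y * m ^ 2) / 10000 := by
      have : (y * m) * 740000 ≤ (y * m) * m := mul_le_mul_of_nonneg_left hmbig hym.le
      nlinarith
    have hym2 : 0 < y * (m : ℝ) ^ 2 := by positivity
    have hfin : 0.69 * (y * m ^ 2 / 2) ≤ y * m ^ 2 / 2 * Real.log 2 := by nlinarith
    linarith
  have hlow : 2 ^ (2 ^ (m - 1)) ≤ pstar (2 ^ (2 * m)) := by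
    apply pstar_ge
    refine (sum_parts_le _ ?_).trans ?_
    · calc 3 ≤ 2 ^ 2 := by norm_num
        _ ≤ 2 ^ (m - 1) := Nat.pow_le_pow_right (by norm_num) (by omega)
    · rw [← pow_mul, show (4 : ℕ) = 2 ^ 2 by norm_num, ← pow_add]
      apply Nat.pow_le_pow_right (by norm_num)
      omega
  have : (M (2 ^ (2 * m)) : ℝ) < (pstar (2 ^ (2 * m)) : ℝ) := by
    refine lt_of_lt_of_le hM ?_
    exact_mod_cast hlow
  exact_mod_cast this

/-- The inequality `M(n) ≥ p*(n)` fails for infinitely many `n`. -/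
theorem result :
    (¬ ∀ n : ℕ, pstar n ≤ M n) ∧
      (∀ t : ℕ, 20 ≤ t → M (2 ^ (2 * 2 ^ t)) < pstar (2 ^ (2 * 2 ^ t))) ∧
      ∀ n : ℕ, (multinomials n).Finite := by
  refine ⟨fun h => ?_, M_lt, multinomials_finite⟩
  have := M_lt 20 (le_refl _)
  exact absurd (h _) (not_le.2 this)

end Pool.Agent.Results.MP_f0b429_co.FewMultinomials
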